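import Mathlib

set_option autoImplicit false

namespace Pool.Agent.Lib.MP_608f54_al

open HNNExtension

/-- The product `g * b^u₁ β₁ * b^u₂ β₂ * ⋯`. -/
def wprod {F : Type} [Group F] (b : F) (l : List (ℤˣ × F)) : F :=
  (l.map (fun x => b ^ (x.1 : ℤ) * x.2)).prod

theorem wprod_nil {F : Type} [Group F] (b : F) : wprod b [] = 1 := rfl

theorem wprod_cons {F : Type} [Group F] (b : F) (x : ℤˣ × F) (l : List (ℤˣ × F)) :
    wprod b (x :: l) = b ^ (x.1 : ℤ) * x.2 * wprod b l := by
  simp [wprod]

theorem wprod_append {F : Type} [Group F] (b : F) (l l' : List (ℤˣ × F)) :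
    wprod b (l ++ l') = wprod b l * wprod b l' := by
  simp [wprod]

theorem mem_of_eq {F : Type} [Group F] {H : Subgroup F} {x y : F} (h : y ∈ H) (e : x = y) :
    x ∈ H := e ▸ h

/-- Induction along Britton's lemma with a subadditive potential. -/
theorem britton_induction {F B : Type} [Group F] [Group B] {A₁ A₂ : Subgroup B} (φ : A₁ ≃* A₂)
    (p : F →* B) (θ : F →* HNNExtension B A₁ A₂ φ) (b : F) (hb : θ b = t)
    (Kt : Subgroup F) [Kt.Normal] (hKt : ∀ x ∈ Kt, θ x = 1)
    (ψ : F → ℕ) (hψ : ∀ x y, ψ (x * y) ≤ ψ x + ψ y) (L : ℕ)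
    (base : ∀ β, ψ β ≤ L → p β = 1 → β ∈ Kt)
    (pinch : ∀ (u : ℤˣ) (β : F), ψ β ≤ L → p β ∈ toSubgroup A₁ A₂ u →
      ∃ β', θ β' = of (p β') ∧ ψ β' ≤ ψ β ∧ b ^ (u : ℤ) * β * b ^ (-(u : ℤ)) * β'⁻¹ ∈ Kt) :
    ∀ (n : ℕ) (g : F) (l : List (ℤˣ × F)), l.length = n → θ g = of (p g) →
      (∀ x ∈ l, θ x.2 = of (p x.2)) → ψ g + (l.map (fun x => ψ x.2)).sum ≤ L →
      θ (g * wprod b l) = 1 → g * wprod b l ∈ Kt := by
  intro n
  induction n using Nat.strong_induction_on with
  | _ n ih =>
  intro g l hn hg hl hL h1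
  by_cases hc : (l.map (fun x => (x.1, p x.2))).IsChain
      (fun a b => a.2 ∈ toSubgroup A₁ A₂ a.1 → a.1 = b.1)
  · let w : NormalWord.ReducedWord B A₁ A₂ := ⟨p g, l.map (fun x => (x.1, p x.2)), hc⟩
    have hw : w.prod φ = θ (g * wprod b l) := by
      simp only [NormalWord.ReducedWord.prod, w, map_mul, hg, wprod, map_list_prod, List.map_map]
      congr 2
      apply List.map_congr_left
      intro x hx
      simp [hl x hx, hb]
    have hnil := ReducedWord.toList_eq_nil_of_mem_of_range φ w (by rw [hw, h1]; exact one_mem _)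
    have hl0 : l = [] := List.map_eq_nil_iff.1 hnil
    subst hl0
    rw [wprod_nil, mul_one] at h1 ⊢
    refine base g (by simpa using hL) ?_
    apply HNNExtension.of_injective φ
    rw [← hg, h1, map_one]
  · rw [List.isChain_map, List.isChain_iff_forall_rel_of_append_cons_cons] at hc
    push Not at hc
    obtain ⟨x, y, l₁, l₂, rfl, hx, hxy⟩ := hc
    have hyx : (y.1 : ℤ) = -(x.1 : ℤ) := by
      rcases Int.units_eq_one_or x.1 with h | h <;> rcases Int.units_eq_one_or y.1 with h' | h' <;>
        simp_all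
    simp only [List.map_append, List.map_cons, List.sum_append, List.sum_cons] at hL
    obtain ⟨β', hβ1, hβ2, hβ3⟩ := pinch x.1 x.2 (by omega) hx
    have hy := hl y (by simp)
    have key : ∀ z : F, z * wprod b (x :: y :: l₂) * (z * (β' * y.2) * wprod b l₂)⁻¹ ∈ Kt := by
      intro z
      have := Subgroup.Normal.conj_mem inferInstance _ hβ3 z
      refine mem_of_eq this ?_
      rw [wprod_cons, wprod_cons, hyx]
      group
    have fin : ∀ z : F, θ (z * wprod b (x :: y :: l₂)) = 1 →
        (θ (z * (β' * y.2) * wprod b l₂) = 1 → z * (β' * y.2) * wprod b l₂ ∈ Kt) →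
        z * wprod b (x :: y :: l₂) ∈ Kt := by
      intro z hz h
      have h2 := hKt _ (key z)
      rw [map_mul, hz, one_mul, map_inv, inv_eq_one] at h2
      have h3 := mul_mem (key z) (h h2)
      rwa [inv_mul_cancel_right] at h3
    have hp1 := hψ β' y.2
    rcases List.eq_nil_or_concat l₁ with rfl | ⟨l₀, v, rfl⟩
    · rw [List.nil_append] at h1 ⊢
      refine fin g h1 (fun h2 => ih l₂.length (by simp at hn; omega) _ l₂ rfl ?_ ?_ ?_ h2)
      · rw [map_mul, map_mul, hg, hβ1, hy, map_mul, map_mul, map_mul, map_mul]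
      · intro z hz; exact hl z (by simp [hz])
      · have := hψ g (β' * y.2)
        simp at hL; omega
    · rw [wprod_append, ← mul_assoc] at h1 ⊢
      refine fin _ h1 (fun h2 => ?_)
      have e : g * wprod b (l₀.concat v) * (β' * y.2) * wprod b l₂
          = g * wprod b (l₀ ++ (v.1, v.2 * (β' * y.2)) :: l₂) := by
        rw [List.concat_eq_append, wprod_append, wprod_append, wprod_cons, wprod_cons, wprod_nil]
        group
      rw [e] at h2 ⊢
      refine ih _ (by simp at hn ⊢; omega) g _ rfl hg ?_ ?_ h2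
      · intro z hz
        rcases List.mem_append.1 hz with hz | hz
        · exact hl z (by simp [hz])
        · rcases List.mem_cons.1 hz with rfl | hz
          · have hv := hl v (by simp)
            simp only [map_mul, hv, hβ1, hy]
          · exact hl z (by simp [hz])
      · have := hψ v.2 (β' * y.2)
        simp at hL ⊢; omega

section Count

variable {α : Type} [DecidableEq α]

/-- Number of letters satisfying `q` in the reduced word. -/
def cnt (q : α → Bool) (x : FreeGroup α) : ℕ := x.toWord.countP (fun a => q a.1)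

theorem cnt_mul (q : α → Bool) (x y : FreeGroup α) : cnt q (x * y) ≤ cnt q x + cnt q y := by
  unfold cnt
  rw [← List.countP_append]
  exact (FreeGroup.toWord_mul_sublist x y).countP_le

theorem cnt_inv (q : α → Bool) (x : FreeGroup α) : cnt q x⁻¹ = cnt q x := by
  unfold cnt
  rw [FreeGroup.toWord_inv, FreeGroup.invRev, List.countP_reverse, List.countP_map]
  rfl

theorem cnt_one (q : α → Bool) : cnt q 1 = 0 := rfl

theorem cnt_of (q : α → Bool) (a : α) : cnt q (FreeGroup.of a) = if q a then 1 else 0 := by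
  unfold cnt
  rw [FreeGroup.toWord_of]
  simp [List.countP_cons]

theorem cnt_le_norm (q : α → Bool) (x : FreeGroup α) : cnt q x ≤ x.norm :=
  List.countP_le_length

/-- Elements without letters satisfying `q`. -/
def cntZero (q : α → Bool) : Subgroup (FreeGroup α) where
  carrier := {x | cnt q x = 0}
  one_mem' := rfl
  mul_mem' := by
    intro x y hx hy
    have := cnt_mul q x y
    simp only [Set.mem_ofPred_eq] at *
    omega
  inv_mem' := by
    intro x hx
    simpa [cnt_inv] using hx

theorem norm_map_le {β : Type} [DecidableEq β] (f : α → β) (x : FreeGroup α) :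
    (FreeGroup.map f x).norm ≤ x.norm := by
  conv_lhs => rw [← FreeGroup.mk_toWord (x := x), FreeGroup.map.mk]
  refine le_trans FreeGroup.norm_mk_le ?_
  simp [FreeGroup.norm]

/-- Weighted length. -/
def wt (M : α → ℕ) (x : FreeGroup α) : ℕ := (x.toWord.map (fun a => M a.1)).sum

omit [DecidableEq α] in
theorem mk_cons (a : α × Bool) (l : List (α × Bool)) :
    FreeGroup.mk (a :: l) = (cond a.2 (FreeGroup.of a.1) (FreeGroup.of a.1)⁻¹) * FreeGroup.mk l := by
  obtain ⟨a, ε⟩ := a
  cases ε
  · simp [FreeGroup.of, FreeGroup.inv_mk, FreeGroup.mul_mk, FreeGroup.invRev]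
  · simp [FreeGroup.of, FreeGroup.mul_mk]

omit [DecidableEq α] in
theorem isReduced_flatMap {β : Type} (c : α → β) (hc : Function.Injective c) (M : α → ℕ)
    (hM : ∀ a, 1 ≤ M a) (l : List (α × Bool)) (hl : FreeGroup.IsReduced l) :
    FreeGroup.IsReduced (l.flatMap (fun a => List.replicate (M a.1) (c a.1, a.2))) := by
  induction l with
  | nil => exact FreeGroup.IsReduced.nil
  | cons a l ih =>
    rw [List.flatMap_cons]
    have hl' : FreeGroup.IsReduced l := (List.isChain_cons.1 hl).2
    refine List.IsChain.append (List.isChain_replicate_of_rel _ (fun _ => rfl)) (ih hl') ?_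
    intro x hx y hy
    have hx' : x = (c a.1, a.2) := List.eq_of_mem_replicate (List.mem_of_getLast? hx)
    cases l with
    | nil => simp at hy
    | cons a' l =>
      obtain ⟨k, hk⟩ := Nat.exists_eq_succ_of_ne_zero (Nat.one_le_iff_ne_zero.1 (hM a'.1))
      rw [List.flatMap_cons, hk, List.replicate_succ] at hy
      simp at hy
      subst hx' hy
      intro h
      exact (List.isChain_cons_cons.1 hl).1 (hc h)

theorem norm_lift_pow {β : Type} [DecidableEq β] (c : α → β) (hc : Function.Injective c)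
    (M : α → ℕ) (hM : ∀ a, 1 ≤ M a) (x : FreeGroup α) :
    (FreeGroup.lift (fun a => FreeGroup.of (c a) ^ M a) x).norm = wt M x := by
  have h1 : ∀ l : List (α × Bool), FreeGroup.lift (fun a => FreeGroup.of (c a) ^ M a)
      (FreeGroup.mk l) =
      FreeGroup.mk (l.flatMap (fun a => List.replicate (M a.1) (c a.1, a.2))) := by
    intro l
    induction l with
    | nil => rfl
    | cons a l ih =>
      rw [mk_cons, map_mul, ih, List.flatMap_cons, ← FreeGroup.mul_mk]
      congr 1
      obtain ⟨a, ε⟩ := a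
      have h2 : FreeGroup.of (c a) ^ M a = FreeGroup.mk (List.replicate (M a) (c a, true)) := by
        rw [← FreeGroup.toWord_of_pow, FreeGroup.mk_toWord]
      cases ε
      · simp [h2, FreeGroup.inv_mk, FreeGroup.invRev]
      · simp [h2]
  conv_lhs => rw [← FreeGroup.mk_toWord (x := x), h1]
  rw [FreeGroup.norm, FreeGroup.toWord_mk,
    (isReduced_flatMap c hc M hM _ FreeGroup.isReduced_toWord).reduce_eq, wt,
    List.length_flatMap]
  simp

theorem cnt_lift_le {γ : Type} [DecidableEq γ] (q : γ → Bool) (z : α → FreeGroup γ) (M : α → ℕ)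
    (h : ∀ a, 2 * cnt q (z a) ≤ M a) (x : FreeGroup α) :
    2 * cnt q (FreeGroup.lift z x) ≤ wt M x := by
  conv_lhs => rw [← FreeGroup.mk_toWord (x := x)]
  unfold wt
  induction x.toWord with
  | nil => exact Nat.zero_le _
  | cons a l ih =>
    rw [mk_cons, map_mul, List.map_cons, List.sum_cons]
    have h1 := cnt_mul q (FreeGroup.lift z (cond a.2 (FreeGroup.of a.1) (FreeGroup.of a.1)⁻¹))
      (FreeGroup.lift z (FreeGroup.mk l))
    have h2 : cnt q (FreeGroup.lift z (cond a.2 (FreeGroup.of a.1) (FreeGroup.of a.1)⁻¹))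
        = cnt q (z a.1) := by
      obtain ⟨a, ε⟩ := a
      cases ε <;> simp [cnt_inv]
    have h3 := h a.1
    omega

theorem le_wt (M : α → ℕ) (x : FreeGroup α) (a : α × Bool) (ha : a ∈ x.toWord) :
    M a.1 ≤ wt M x :=
  List.single_le_sum (fun _ _ => Nat.zero_le _) _ (List.mem_map.2 ⟨a, ha, rfl⟩)

theorem conj_lift_mem {F : Type} [Group F] (K : Subgroup F) [K.Normal] (b : F) (z z' : α → F)
    (x : FreeGroup α) (h : ∀ a ∈ x.toWord, b * z a.1 * b⁻¹ * (z' a.1)⁻¹ ∈ K) :
    b * FreeGroup.lift z x * b⁻¹ * (FreeGroup.lift z' x)⁻¹ ∈ K := by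
  rw [← QuotientGroup.eq_one_iff, QuotientGroup.mk_mul, QuotientGroup.mk_inv, mul_inv_eq_one]
  rw [← FreeGroup.mk_toWord (x := x)]
  revert h
  induction x.toWord with
  | nil => intro _; rw [← FreeGroup.one_eq_mk]; simp
  | cons a l ih =>
    intro h
    have h1 := ih (fun a ha => h a (List.mem_cons_of_mem _ ha))
    have h2 := h a List.mem_cons_self
    rw [← QuotientGroup.eq_one_iff, QuotientGroup.mk_mul, QuotientGroup.mk_inv,
      mul_inv_eq_one] at h2
    rw [mk_cons, map_mul, map_mul, QuotientGroup.mk_mul _ (FreeGroup.lift z' _), ← h1]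
    obtain ⟨a, ε⟩ := a
    cases ε
    · simp only [cond_false, map_inv, FreeGroup.lift_apply_of, QuotientGroup.mk_inv, ← h2,
        QuotientGroup.mk_mul]
      group
    · simp only [cond_true, FreeGroup.lift_apply_of, ← h2, QuotientGroup.mk_mul,
        QuotientGroup.mk_inv]
      group

end Count

end Pool.Agent.Lib.MP_608f54_al
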