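import Pool.Agent.Lib.MP_608f54_al.Step

set_option autoImplicit false

namespace Pool.Agent.Lib.MP_608f54_al

open FreeGroup (of)

/-- `g` is a product of at most `k` elements of `S ∪ S⁻¹`. -/
def Len {H : Type} [Group H] (S : Set H) (g : H) (k : ℕ) : Prop :=
  ∃ l : List H, (∀ s ∈ l, s ∈ S ∨ s⁻¹ ∈ S) ∧ l.prod = g ∧ l.length ≤ k

section Len

variable {H : Type} [Group H] {S : Set H}

theorem Len.mono {g : H} {k k' : ℕ} (h : Len S g k) (hk : k ≤ k') : Len S g k' := by
  obtain ⟨l, h1, h2, h3⟩ := h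
  exact ⟨l, h1, h2, le_trans h3 hk⟩

theorem Len.one : Len S 1 0 := ⟨[], by simp, rfl, le_rfl⟩

theorem Len.gen {g : H} (h : g ∈ S) : Len S g 1 := ⟨[g], by simp [h], by simp, le_rfl⟩

theorem Len.mul {g g' : H} {k k' : ℕ} (h : Len S g k) (h' : Len S g' k') :
    Len S (g * g') (k + k') := by
  obtain ⟨l, h1, h2, h3⟩ := h
  obtain ⟨l', h1', h2', h3'⟩ := h'
  refine ⟨l ++ l', ?_, by rw [List.prod_append, h2, h2'], by rw [List.length_append]; omega⟩
  intro s hs
  rcases List.mem_append.1 hs with hs | hs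
  · exact h1 s hs
  · exact h1' s hs

theorem Len.inv {g : H} {k : ℕ} (h : Len S g k) : Len S g⁻¹ k := by
  obtain ⟨l, h1, h2, h3⟩ := h
  refine ⟨(l.map (fun s => s⁻¹)).reverse, ?_, by rw [← List.prod_inv_reverse, h2], by simpa⟩
  intro s hs
  obtain ⟨s', hs', rfl⟩ := List.mem_map.1 (List.mem_reverse.1 hs)
  rw [inv_inv]
  exact (h1 s' hs').symm

theorem Len.pow {g : H} (h : Len S g 1) (k : ℕ) : Len S (g ^ k) k := by
  induction k with
  | zero => rw [pow_zero]; exact Len.one
  | succ k ih => rw [pow_succ]; exact ih.mul h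

theorem Len.zpow {g : H} (h : Len S g 1) (k : ℤ) : Len S (g ^ k) k.natAbs := by
  rcases Int.natAbs_eq k with e | e
  · have := h.pow k.natAbs
    rwa [← zpow_natCast, ← e] at this
  · have := (h.pow k.natAbs).inv
    rwa [← zpow_natCast, ← zpow_neg, ← e] at this

theorem Len.mem_closure {g : H} {k : ℕ} (h : Len S g k) : g ∈ Subgroup.closure S := by
  obtain ⟨l, h1, rfl, _⟩ := h
  refine Subgroup.list_prod_mem _ (fun s hs => ?_)
  rcases h1 s hs with h | h
  · exact Subgroup.subset_closure h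
  · exact inv_mem_iff.1 (Subgroup.subset_closure h)

end Len

/-- Exponent sum of `t`. -/
def ex : List (Gn × Bool) → ℤ
  | [] => 0
  | g :: w => (if g.1 = Gn.t then cond g.2 1 (-1) else 0) + ex w

theorem ex_le (w : List (Gn × Bool)) : (ex w).natAbs ≤ w.length := by
  induction w with
  | nil => exact le_rfl
  | cons g w ih =>
    rw [ex, List.length_cons]
    split_ifs
    · cases g.2 <;> simp only [cond_true, cond_false] <;> omega
    · omega

/-- Value of a word. -/
def ev {H : Type} [Group H] (γ : Gn → H) (w : List (Gn × Bool)) : H :=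
  (w.map (fun g => cond g.2 (γ g.1) (γ g.1)⁻¹)).prod

theorem ev_eq {H : Type} [Group H] (n : ℕ) (τ : H) (Ψ : Fr →* H) (γ : Gn → H) (h0 : γ Gn.t = τ)
    (h1 : ∀ g j, g ≠ Gn.t → Ψ (of (ltr n g, j)) = τ ^ j * γ g * τ ^ (-j))
    (w : List (Gn × Bool)) (j : ℤ) : τ ^ j * ev γ w = Ψ (hw n w j) * τ ^ (j + ex w) := by
  induction w generalizing j with
  | nil => simp [ev, hw, ex]
  | cons g w ih =>
    have e : ev γ (g :: w) = cond g.2 (γ g.1) (γ g.1)⁻¹ * ev γ w := by simp [ev]
    rw [e, hw, ex]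
    split_ifs with hg
    · rw [hg, h0]
      cases g.2
      · simp only [cond_false]
        rw [← add_assoc, ← sub_eq_add_neg, ← ih]
        group
      · simp only [cond_true]
        rw [← add_assoc, ← ih]
        group
    · rw [map_mul, zero_add, mul_assoc, ← ih]
      cases g.2
      · simp only [cond_false, map_inv, h1 g.1 j hg]
        group
      · simp only [cond_true, h1 g.1 j hg]
        group

def sh : Fr ≃* Fr := FreeGroup.freeGroupCongr (Equiv.prodCongr (Equiv.refl Lt) (Equiv.addRight 1))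

theorem sh_of (l : Lt) (j : ℤ) : sh (of (l, j)) = of (l, j + 1) := by simp [sh]

theorem sh_hw (n : ℕ) (w : List (Gn × Bool)) (j : ℤ) : sh (hw n w j) = hw n w (j + 1) := by
  induction w generalizing j with
  | nil => simp [hw]
  | cons g w ih =>
    rw [hw, hw]
    split_ifs
    · rw [ih]
      cases g.2
      · simp only [cond_false]; congr 1; ring
      · rfl
    · rw [map_mul, ih]
      cases g.2 <;> simp [sh_of]

theorem sh_uu (i : Ix) (m : ℤ) : sh (uu i m) = uu i (m + 1) := by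
  have : sh.toMonoidHom.comp (FreeGroup.map (fun β => (Lt.a β, m))) =
      FreeGroup.map (fun β => (Lt.a β, m + 1)) := by
    ext β : 1
    simp [sh_of]
  exact DFunLike.congr_fun this (code i)

theorem sh_rel (i : Ix) (m : ℤ) : sh (rel i m) = rel i (m + 1) := by
  have e : m - ((i.2.length : ℤ) + 1) + 1 = m + 1 - (i.2.length + 1) := by ring
  simp only [rel, z, z', hh, map_mul, map_inv, map_pow, sh_of, sh_uu, sh_hw, e]

theorem KK_map : KK.map (sh : Fr →* Fr) = KK := by
  rw [KK, Subgroup.map_normalClosure _ (sh : Fr →* Fr) sh.surjective]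
  congr 1
  ext y
  constructor
  · rintro ⟨_, ⟨i, j, rfl⟩, rfl⟩
    exact ⟨i, j + 1, sh_rel i j⟩
  · rintro ⟨i, j, rfl⟩
    exact ⟨rel i (j - 1), ⟨i, j - 1, rfl⟩, by
      change sh _ = _
      rw [sh_rel, sub_add_cancel]⟩

abbrev NN : Type := Fr ⧸ KK

def sigma : MulAut NN := QuotientGroup.congr KK KK sh KK_map

abbrev GG : Type := NN ⋊[zpowersHom (MulAut NN) sigma] Multiplicative ℤ

def tt : GG := SemidirectProduct.inr (Multiplicative.ofAdd 1)

def Psi : Fr →* GG := SemidirectProduct.inl.comp (QuotientGroup.mk' KK)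

theorem Psi_succ (l : Lt) (j : ℤ) : Psi (of (l, j + 1)) = tt * Psi (of (l, j)) * tt⁻¹ := by
  rw [tt, Psi, MonoidHom.comp_apply, MonoidHom.comp_apply, ← map_inv,
    ← SemidirectProduct.inl_aut, ← sh_of]
  congr 1

theorem Psi_of (l : Lt) (j : ℤ) : Psi (of (l, j)) = tt ^ j * Psi (of (l, 0)) * tt ^ (-j) := by
  induction j using Int.induction_on with
  | zero => simp
  | succ j ih => rw [Psi_succ, ih]; group
  | pred j ih =>
    have := Psi_succ l (-j - 1)
    rw [sub_add_cancel, ih] at this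
    have h2 : Psi (of (l, -(j : ℤ) - 1)) = tt⁻¹ * (tt * Psi (of (l, -(j : ℤ) - 1)) * tt⁻¹) * tt := by
      group
    rw [h2, ← this]
    group

theorem tt_zpow (k : ℤ) : tt ^ k = SemidirectProduct.inr (Multiplicative.ofAdd k) := by
  rw [tt, ← map_zpow, ← ofAdd_zsmul, smul_eq_mul, mul_one]

def gam (n : ℕ) (g : Gn) : GG := if g = Gn.t then tt else Psi (of (ltr n g, 0))

def SS : Set GG := {y | ∃ g, g ≠ Gn.x ∧ y = gam 0 g}

theorem ev_gam (n : ℕ) (w : List (Gn × Bool)) : ev (gam n) w = Psi (hw n w 0) * tt ^ ex w := by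
  have := ev_eq n tt Psi (gam n) (by simp [gam])
    (fun g j hg => by rw [Psi_of, gam, if_neg hg]) w 0
  simpa using this

theorem len_tt : Len SS tt 1 := Len.gen ⟨Gn.t, by simp, by simp [gam]⟩

theorem len_a (β : Bool) : Len SS (Psi (of (Lt.a β, 0))) 1 :=
  Len.gen ⟨Gn.a β, by simp, by simp [gam, ltr]⟩

theorem len_b : Len SS (Psi (of (Lt.b, 0))) 1 := Len.gen ⟨Gn.b, by simp, by simp [gam, ltr]⟩

theorem len_c : Len SS (Psi (of (Lt.c, 0))) 1 := Len.gen ⟨Gn.c, by simp, by simp [gam, ltr]⟩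

theorem len_uu (i : Ix) : Len SS (Psi (uu i 0)) (enc i).length := by
  unfold uu code
  induction enc i with
  | nil => rw [List.map_nil, ← FreeGroup.one_eq_mk, map_one, map_one]; exact Len.one
  | cons β l ih =>
    rw [List.map_cons, mk_cons, map_mul, map_mul, List.length_cons, add_comm]
    exact (len_a β).mul ih

theorem Psi_uu (i : Ix) (m : ℤ) : Psi (uu i m) = tt ^ m * Psi (uu i 0) * tt ^ (-m) := by
  unfold uu
  induction code i using FreeGroup.induction_on with
  | C1 => simp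
  | of β => simp [Psi_of (Lt.a β) m]
  | inv_of β hβ => rw [map_inv, map_inv, map_inv, map_inv, hβ]; group
  | mul x y hx hy => rw [map_mul, map_mul, map_mul, map_mul, hx, hy]; group

theorem Psi_rel (i : Ix) (m : ℤ) : Psi (rel i m) = 1 := by
  have : rel i m ∈ KK := Subgroup.subset_normalClosure ⟨i, m, rfl⟩
  rw [Psi, MonoidHom.comp_apply, QuotientGroup.mk'_apply, (QuotientGroup.eq_one_iff _).2 this,
    map_one]

theorem len_ev (n : ℕ) (w : List (Gn × Bool)) :
    Len SS (ev (gam n) w) (8 * n + 23 * w.length + 10) := by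
  set i : Ix := (n, w) with hi
  set m : ℤ := (w.length : ℤ) + 1 with hm
  have h0 : hh i m = hw n w 0 := by simp [hh, hi, hm]
  have h1 := Psi_rel i m
  simp only [rel, z, z', map_mul, map_inv, map_pow, h0, Psi_uu i m, Psi_of Lt.b m] at h1
  have h2 : Psi (of (Lt.c, m)) ^ M i = tt ^ m * Psi (of (Lt.c, 0)) ^ M i * tt ^ (-m) := by
    rw [Psi_of Lt.c m, zpow_neg, conj_pow]
  rw [h2, mul_inv_eq_one] at h1
  set U := Psi (uu i 0)
  set B := Psi (of (Lt.b, 0))
  set C := Psi (of (Lt.c, 0)) ^ M i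
  have h3 : Psi (hw n w 0) = tt ^ m * (U⁻¹ * B * U * C * U⁻¹ * B⁻¹ * U * C⁻¹) * tt ^ (-m) := by
    have : Psi (hw n w 0) = (tt ^ m * U * tt ^ (-m))⁻¹ * (tt ^ m * U * tt ^ (-m) * Psi (hw n w 0) *
        (tt ^ m * C * tt ^ (-m)) * (tt ^ m * U * tt ^ (-m))⁻¹) * (tt ^ m * U * tt ^ (-m)) *
        (tt ^ m * C * tt ^ (-m))⁻¹ := by group
    rw [this, ← h1]
    group
  have hU : Len SS U (enc i).length := len_uu i
  have hC : Len SS C (M i) := len_c.pow _
  have h4 := (((len_tt.zpow m).mul (((((((hU.inv.mul len_b).mul hU).mul hC).mul hU.inv).mul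
    len_b.inv).mul hU).mul hC.inv)).mul (len_tt.zpow (-m))).mul (len_tt.zpow (ex w))
  rw [ev_gam, h3]
  refine h4.mono ?_
  have := ex_le w
  rw [enc_length]
  simp only [M, hi]
  omega

theorem closure_SS : Subgroup.closure SS = ⊤ := by
  rw [eq_top_iff]
  intro g _
  rw [← SemidirectProduct.inl_left_mul_inr_right g]
  have ht : tt ∈ Subgroup.closure SS := len_tt.mem_closure
  refine mul_mem ?_ ?_
  · obtain ⟨y, hy⟩ := QuotientGroup.mk'_surjective KK g.left
    rw [← hy]
    change Psi y ∈ _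
    clear hy
    induction y using FreeGroup.induction_on with
    | C1 => rw [map_one]; exact one_mem _
    | of l =>
      obtain ⟨l, j⟩ := l
      rw [Psi_of]
      refine mul_mem (mul_mem (zpow_mem ht _) ?_) (zpow_mem ht _)
      cases l with
      | a β => exact (len_a β).mem_closure
      | b => exact len_b.mem_closure
      | c => exact len_c.mem_closure
      | x k =>
        have := (len_ev k [(Gn.x, true)]).mem_closure
        simpa [ev, gam, ltr] using this
    | inv_of l hl => rw [map_inv]; exact inv_mem hl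
    | mul x y hx hy => rw [map_mul]; exact mul_mem hx hy
  · have := zpow_mem ht (Multiplicative.toAdd g.right)
    rwa [tt_zpow] at this

abbrev PP : Type := Monoid.Coprod GG (Multiplicative ℤ)

def xx : PP := Monoid.Coprod.inr (Multiplicative.ofAdd 1)

def TT : Set PP := Monoid.Coprod.inl '' SS ∪ {xx}

def ph (n : ℕ) : PP →* GG :=
  Monoid.Coprod.lift (MonoidHom.id GG) (zpowersHom GG (Psi (of (Lt.x n, 0))))

def gam' (g : Gn) : PP := if g = Gn.x then xx else Monoid.Coprod.inl (gam 0 g)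

theorem ph_gam' (n : ℕ) (g : Gn) : ph n (gam' g) = gam n g := by
  cases g <;> simp [ph, gam', gam, xx, ltr]

theorem ph_ev (n : ℕ) (w : List (Gn × Bool)) : ph n (ev gam' w) = ev (gam n) w := by
  simp only [ev, map_list_prod, List.map_map]
  congr 1
  apply List.map_congr_left
  rintro ⟨g, ε⟩ _
  cases ε <;> simp [ph_gam']

theorem exists_word {p : PP} {k : ℕ} (h : Len TT p k) :
    ∃ w : List (Gn × Bool), w.length ≤ k ∧ ev gam' w = p := by
  obtain ⟨l, h1, rfl, h3⟩ := h
  have key : ∀ s ∈ TT, ∃ g, gam' g = s := by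
    rintro s (⟨_, ⟨g, hg, rfl⟩, rfl⟩ | hs)
    · exact ⟨g, by simp [gam', hg]⟩
    · exact ⟨Gn.x, by rw [Set.mem_singleton_iff.1 hs]; simp [gam']⟩
  suffices ∃ w : List (Gn × Bool), w.length = l.length ∧ ev gam' w = l.prod by
    obtain ⟨w, h, h'⟩ := this
    exact ⟨w, by omega, h'⟩
  clear h3
  induction l with
  | nil => exact ⟨[], rfl, rfl⟩
  | cons s l ih =>
    obtain ⟨w, h, h'⟩ := ih (fun s hs => h1 s (List.mem_cons_of_mem _ hs))
    rcases h1 s List.mem_cons_self with hs | hs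
    · obtain ⟨g, hg⟩ := key _ hs
      exact ⟨(g, true) :: w, by simp [h], by rw [List.prod_cons, ← h', ← hg]; simp [ev]⟩
    · obtain ⟨g, hg⟩ := key _ hs
      exact ⟨(g, false) :: w, by simp [h], by
        rw [List.prod_cons, ← h', ← inv_inv s, ← hg]; simp [ev]⟩

def Psi' (n : ℕ) : Fr →* PP :=
  FreeGroup.lift (fun l => if l.1 = Lt.x n then
    Monoid.Coprod.inl tt ^ l.2 * xx * Monoid.Coprod.inl tt ^ (-l.2)
    else Monoid.Coprod.inl (Psi (of l)))

theorem ev_gam' (n : ℕ) (w : List (Gn × Bool)) :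
    ev gam' w = Psi' n (hw n w 0) * Monoid.Coprod.inl tt ^ ex w := by
  have := ev_eq n (Monoid.Coprod.inl tt) (Psi' n) gam' (by simp [gam', gam])
    (fun g j hg => by
      cases g <;> simp [Psi', gam', gam, ltr, Psi_of _ j] at hg ⊢) w 0
  simpa using this

theorem KKt_le_ker (n : ℕ) : KKt n ≤ (Psi' n).ker := by
  apply Subgroup.normalClosure_le_normal
  rintro _ ⟨i, j, hi, rfl⟩
  let H : Subgroup Fr := (Psi' n).eqLocus (Monoid.Coprod.inl.comp Psi)
  have hH : ∀ l : Al, l.1 ≠ Lt.x n → of l ∈ H := by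
    intro l hl
    change Psi' n (of l) = Monoid.Coprod.inl (Psi (of l))
    simp [Psi', hl]
  have h1 : rel i j ∈ H :=
    mul_mem (mul_mem (mul_mem (hH _ (by simp))
      (z_mem H i j (fun _ => hH _ (by simp)) (hH _ (by simp)))) (inv_mem (hH _ (by simp))))
      (inv_mem (z'_mem H i j (fun _ => hH _ (by simp)) (hH _ (by simp))
        (fun g _ _ => hH _ (by cases g <;> simp [ltr, hi]))))
  change Psi' n (rel i j) = 1
  have h2 : Psi' n (rel i j) = Monoid.Coprod.inl (Psi (rel i j)) := h1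
  rw [h2, Psi_rel, map_one]

theorem ph_inj (n : ℕ) {p : PP} (h : Len TT p (2 * n)) (h1 : ph n p = 1) : p = 1 := by
  obtain ⟨w, hw1, rfl⟩ := exists_word h
  rw [ph_ev, ev_gam, tt_zpow] at h1
  have h2 := congrArg SemidirectProduct.right h1
  have h3 := congrArg SemidirectProduct.left h1
  simp [Psi] at h2 h3
  have h4 := short_mem n _ (le_trans (norm_hw n w 0) hw1) h3
  rw [ev_gam' n, h2, KKt_le_ker n h4]
  simp

theorem ph_len (n : ℕ) {p : PP} (h : Len TT p n) : Len SS (ph n p) (41 * n) := by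
  obtain ⟨w, hw1, rfl⟩ := exists_word h
  rw [ph_ev]
  rcases Nat.eq_zero_or_pos n with rfl | hn
  · have : w = [] := List.length_eq_zero_iff.1 (by omega)
    subst this
    exact Len.one
  · exact (len_ev n w).mono (by omega)

theorem SS_finite : SS.Finite := by
  have : SS ⊆ {gam 0 Gn.t, gam 0 (Gn.a false), gam 0 (Gn.a true), gam 0 Gn.b, gam 0 Gn.c} := by
    rintro _ ⟨g, hg, rfl⟩
    cases g with
    | a β => cases β <;> simp
    | x => exact absurd rfl hg
    | _ => simp
  exact Set.Finite.subset (Set.toFinite _) this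

instance : Infinite GG := Infinite.of_injective _ SemidirectProduct.inr_injective

theorem main : ∃ (G : Type) (_ : Group G) (S : Finset G), Infinite G ∧
    Subgroup.closure (S : Set G) = ⊤ ∧
    ∀ n : ℕ, ∃ φ : Monoid.Coprod G (Multiplicative ℤ) →* G,
      (∀ g, φ (Monoid.Coprod.inl g) = g) ∧
      (∀ p q, Len (Monoid.Coprod.inl '' (S : Set G) ∪
          {Monoid.Coprod.inr (Multiplicative.ofAdd 1)}) p n →
        Len (Monoid.Coprod.inl '' (S : Set G) ∪
          {Monoid.Coprod.inr (Multiplicative.ofAdd 1)}) q n → φ p = φ q → p = q) ∧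
      (∀ p, Len (Monoid.Coprod.inl '' (S : Set G) ∪
          {Monoid.Coprod.inr (Multiplicative.ofAdd 1)}) p n → Len (S : Set G) (φ p) (41 * n)) := by
  refine ⟨GG, inferInstance, SS_finite.toFinset, inferInstance, ?_, fun n => ⟨ph n, ?_, ?_, ?_⟩⟩
  · rw [Set.Finite.coe_toFinset, closure_SS]
  · intro g; simp [ph]
  · rw [Set.Finite.coe_toFinset]
    intro p q hp hq h
    have := ph_inj n (p := p⁻¹ * q) ((hp.inv.mul hq).mono (by omega))
      (by rw [map_mul, map_inv, h, inv_mul_cancel])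
    exact inv_mul_eq_one.1 this
  · rw [Set.Finite.coe_toFinset]
    exact fun p hp => ph_len n hp

end Pool.Agent.Lib.MP_608f54_al
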