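import Pool.Agent.Lib.MP_608f54_al.Tower

set_option autoImplicit false

namespace Pool.Agent.Lib.MP_608f54_al

open FreeGroup (of)

def psi (m : ℤ) (y : Fr) : ℕ := max (2 * nu m y) (2 * cnt (lowq m) y + nu m y)

theorem psi_mul (m : ℤ) (x y : Fr) : psi m (x * y) ≤ psi m x + psi m y := by
  have h1 := nu_mul m x y
  have h2 := cnt_mul (lowq m) x y
  unfold psi
  omega

theorem psi_one (m : ℤ) : psi m 1 = 0 := by simp [psi, nu, cnt_one]

abbrev A1 (a m : ℤ) : Subgroup (Fr ⧸ K a m) :=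
  ((QuotientGroup.mk' (K a m)).comp (FreeGroup.lift (z m))).range

abbrev A2 (a m : ℤ) : Subgroup (Fr ⧸ K a m) :=
  ((QuotientGroup.mk' (K a m)).comp (FreeGroup.lift (z' m))).range

noncomputable def phi (a m : ℤ) : A1 a m ≃* A2 a m :=
  (MonoidHom.ofInjective (lift_inj a m (z m) (fun i => pr_z i m))).symm.trans
    (MonoidHom.ofInjective (lift_inj a m (z' m) (fun i => pr_z' i m)))

theorem phi_apply (a m : ℤ) (i : Ix) :
    (phi a m ⟨((z m i : Fr) : Fr ⧸ K a m), of i, by simp⟩ : Fr ⧸ K a m) = (z' m i : Fr) := by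
  have : (⟨((z m i : Fr) : Fr ⧸ K a m), of i, by simp⟩ : A1 a m) =
      MonoidHom.ofInjective (lift_inj a m (z m) (fun i => pr_z i m)) (of i) := by
    apply Subtype.ext
    simp [MonoidHom.ofInjective_apply]
  rw [this, phi, MulEquiv.trans_apply, MulEquiv.symm_apply_apply, MonoidHom.ofInjective_apply]
  simp

abbrev HH (a m : ℤ) : Type := HNNExtension (Fr ⧸ K a m) (A1 a m) (A2 a m) (phi a m)

noncomputable def theta (a m : ℤ) : Fr →* HH a m :=
  FreeGroup.lift (fun l => if l = (Lt.b, m) then HNNExtension.t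
    else HNNExtension.of ((of l : Fr) : Fr ⧸ K a m))

noncomputable def EE (a m : ℤ) : Subgroup Fr :=
  (theta a m).eqLocus (HNNExtension.of.comp (QuotientGroup.mk' (K a m)))

theorem mem_EE {a m : ℤ} {y : Fr} :
    y ∈ EE a m ↔ theta a m y = HNNExtension.of (QuotientGroup.mk' (K a m) y) := Iff.rfl

theorem of_mem_EE (a m : ℤ) (l : Al) (h : l ≠ (Lt.b, m)) : of l ∈ EE a m := by
  rw [mem_EE]; simp [theta, h]

theorem theta_b (a m : ℤ) : theta a m (of (Lt.b, m)) = HNNExtension.t := by simp [theta]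

theorem z_mem_EE (a m : ℤ) (i : Ix) : z m i ∈ EE a m :=
  z_mem _ i m (fun _ => of_mem_EE a m _ (by simp)) (of_mem_EE a m _ (by simp))

theorem z'_mem_EE (a m : ℤ) (i : Ix) : z' m i ∈ EE a m :=
  z'_mem _ i m (fun _ => of_mem_EE a m _ (by simp)) (of_mem_EE a m _ (by simp))
    (fun _ j hj => of_mem_EE a m _ (fun h => (ne_of_lt hj) (Prod.mk.inj h).2))

theorem lift_mem {H : Subgroup Fr} {y : Ix → Fr} (h : ∀ i, y i ∈ H) (ζ : FreeGroup Ix) :
    FreeGroup.lift y ζ ∈ H := by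
  induction ζ using FreeGroup.induction_on with
  | C1 => rw [map_one]; exact one_mem _
  | of i => simpa using h i
  | inv_of i hi => rw [map_inv]; exact inv_mem hi
  | mul x y hx hy => rw [map_mul]; exact mul_mem hx hy

theorem K_le_ker_theta (a m : ℤ) : K a (m + 1) ≤ (theta a m).ker := by
  apply Subgroup.normalClosure_le_normal
  rintro _ ⟨i, j, ha, hj, rfl⟩
  change theta a m (rel i j) = 1
  rcases eq_or_lt_of_le (Int.lt_add_one_iff.1 hj) with rfl | hj'
  · rw [rel, map_mul, map_mul, map_mul, map_inv, map_inv, theta_b, mem_EE.1 (z_mem_EE a j i),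
      mem_EE.1 (z'_mem_EE a j i), mul_inv_eq_one]
    have := HNNExtension.equiv_eq_conj (φ := phi a j) ⟨((z j i : Fr) : Fr ⧸ K a j), of i, by simp⟩
    rw [phi_apply] at this
    exact this.symm
  · have h1 : rel i j ∈ EE a m :=
      rel_mem _ i j (fun l hl => of_mem_EE a m l (fun h => by rw [h] at hl; simp at hl; omega))
    have h2 : rel i j ∈ K a m := Subgroup.subset_normalClosure ⟨i, j, ha, hj', rfl⟩
    rw [mem_EE.1 h1, QuotientGroup.mk'_apply, (QuotientGroup.eq_one_iff _).2 h2, map_one]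

theorem Kt_le_K (n : ℕ) (a m : ℤ) : Kt n a m ≤ K a m :=
  Subgroup.normalClosure_mono (by rintro _ ⟨i, j, _, h1, h2, rfl⟩; exact ⟨i, j, h1, h2, rfl⟩)

theorem Kt_mono (n : ℕ) (a m : ℤ) : Kt n a m ≤ Kt n a (m + 1) :=
  Subgroup.normalClosure_mono
    (by rintro _ ⟨i, j, h0, h1, h2, rfl⟩; exact ⟨i, j, h0, h1, by omega, rfl⟩)

theorem psi_letter (m : ℤ) (l : Al) (ε : Bool) :
    psi m (cond ε (of l) (of l)⁻¹) ≤ 2 * (if lowq (m + 1) l then 1 else 0) := by
  have h1 : cnt (lowq m) (cond ε (of l) (of l)⁻¹) = if lowq m l then 1 else 0 := by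
    cases ε <;> simp [cnt_inv, cnt_of]
  have h2 : nu m (cond ε (of l) (of l)⁻¹) ≤ if l.2 = m then 1 else 0 := by
    obtain ⟨l, j⟩ := l
    by_cases hj : j = m
    · subst hj
      cases ε <;> cases l <;> simp [nu, pr, piL]
    · cases ε <;> simp [nu, pr, hj]
  unfold psi
  rw [h1]
  simp only [lowq, decide_eq_true_eq] at *
  split_ifs at * <;> omega

theorem decompose (a m : ℤ) (L : List (Al × Bool)) :
    ∃ (g : Fr) (l : List (ℤˣ × Fr)), g ∈ EE a m ∧ (∀ x ∈ l, x.2 ∈ EE a m) ∧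
      FreeGroup.mk L = g * wprod (of (Lt.b, m)) l ∧
      psi m g + (l.map (fun x => psi m x.2)).sum ≤ 2 * L.countP (fun y => lowq (m + 1) y.1) := by
  induction L with
  | nil => exact ⟨1, [], one_mem _, by simp, by rw [wprod_nil, mul_one]; rfl, by simp [psi_one]⟩
  | cons y L ih =>
    obtain ⟨g, l, hg, hl, e, hc⟩ := ih
    rw [mk_cons, e, List.countP_cons]
    by_cases hy : y.1 = (Lt.b, m)
    · refine ⟨1, (cond y.2 1 (-1), g) :: l, one_mem _, ?_, ?_, ?_⟩
      · intro x hx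
        rcases List.mem_cons.1 hx with rfl | hx
        · exact hg
        · exact hl x hx
      · rw [wprod_cons, hy]
        cases y.2 <;> simp [mul_assoc]
      · rw [psi_one, List.map_cons, List.sum_cons]
        simp only
        omega
    · refine ⟨cond y.2 (of y.1) (of y.1)⁻¹ * g, l, mul_mem ?_ hg, hl, by rw [mul_assoc], ?_⟩
      · have := of_mem_EE a m y.1 hy
        cases y.2
        · exact inv_mem this
        · exact this
      · have h1 := psi_mul m (cond y.2 (of y.1) (of y.1)⁻¹) g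
        have h2 := psi_letter m y.1 y.2
        omega

theorem pinch_aux (n : ℕ) (a m : ℤ)
    (ih : ∀ W : Fr, cnt (lowq m) W ≤ 2 * n → W ∈ K a m → W ∈ Kt n a m)
    (y : Ix → Fr) (hy : ∀ i, pr m (y i) = SemidirectProduct.inl (of (code i) ^ M i))
    (hc : ∀ i, 2 * cnt (lowq m) (y i) ≤ M i) (β : Fr) (hβ : psi m β ≤ 4 * n)
    (hmem : QuotientGroup.mk' (K a m) β ∈
      ((QuotientGroup.mk' (K a m)).comp (FreeGroup.lift y)).range) :
    ∃ ζ : FreeGroup Ix, wt M ζ = nu m β ∧ (∀ i ∈ ζ.toWord, i.1.1 ≠ n) ∧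
      β * (FreeGroup.lift y ζ)⁻¹ ∈ Kt n a m := by
  obtain ⟨ζ, hζ⟩ := hmem
  have h1 : nu m (FreeGroup.lift y ζ) = nu m β := nu_eq a m hζ
  rw [nu_lift m y hy] at h1
  unfold psi at hβ
  refine ⟨ζ, h1, ?_, ih _ ?_ ?_⟩
  · intro i hi h
    have := le_wt M ζ i hi
    have h3 : M i.1 = 2 * i.1.1 + 2 * i.1.2.length + 1 := rfl
    omega
  · have h2 := cnt_mul (lowq m) β (FreeGroup.lift y ζ)⁻¹
    have h3 := cnt_lift_le (lowq m) y M hc ζ
    rw [cnt_inv] at h2
    omega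
  · rw [← QuotientGroup.eq_one_iff, QuotientGroup.mk_mul, QuotientGroup.mk_inv, mul_inv_eq_one]
    exact hζ.symm

theorem psi_lift_le (m : ℤ) (y : Ix → Fr)
    (hy : ∀ i, pr m (y i) = SemidirectProduct.inl (of (code i) ^ M i))
    (hc : ∀ i, 2 * cnt (lowq m) (y i) ≤ M i) (ζ : FreeGroup Ix) (β : Fr) (h : wt M ζ = nu m β) :
    psi m (FreeGroup.lift y ζ) ≤ psi m β := by
  have h1 := nu_lift m y hy ζ
  have h3 := cnt_lift_le (lowq m) y M hc ζ
  unfold psi
  omega

theorem level_step (n : ℕ) (a m : ℤ) (ham : a ≤ m)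
    (ih : ∀ W : Fr, cnt (lowq m) W ≤ 2 * n → W ∈ K a m → W ∈ Kt n a m)
    (W : Fr) (hW : cnt (lowq (m + 1)) W ≤ 2 * n) (hK : W ∈ K a (m + 1)) : W ∈ Kt n a (m + 1) := by
  obtain ⟨g, l, hg, hl, e, hc⟩ := decompose a m W.toWord
  rw [FreeGroup.mk_toWord] at e
  have hrel : ∀ ζ : FreeGroup Ix, (∀ i ∈ ζ.toWord, i.1.1 ≠ n) →
      of (Lt.b, m) * FreeGroup.lift (z m) ζ * (of (Lt.b, m))⁻¹ * (FreeGroup.lift (z' m) ζ)⁻¹ ∈
        Kt n a (m + 1) := fun ζ hζ =>
    conj_lift_mem _ _ _ _ ζ (fun i hi =>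
      Subgroup.subset_normalClosure ⟨i.1, m, hζ i hi, ham, by omega, rfl⟩)
  rw [e]
  refine britton_induction (phi a m) (QuotientGroup.mk' (K a m)) (theta a m) (of (Lt.b, m))
    (theta_b a m) (Kt n a (m + 1)) (fun x hx => K_le_ker_theta a m (Kt_le_K n a (m + 1) hx))
    (psi m) (psi_mul m) (4 * n) ?_ ?_ l.length g l rfl hg hl ?_ ?_
  · intro β hβ h1
    refine Kt_mono n a m (ih β ?_ ((QuotientGroup.eq_one_iff _).1 h1))
    unfold psi at hβ
    omega
  · intro u β hβ hmem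
    rcases Int.units_eq_one_or u with rfl | rfl
    · obtain ⟨ζ, h1, h2, h3⟩ := pinch_aux n a m ih (z m) (fun i => pr_z i m) (cnt_z m) β hβ hmem
      refine ⟨FreeGroup.lift (z' m) ζ, lift_mem (H := EE a m) (z'_mem_EE a m) ζ,
        psi_lift_le m _ (fun i => pr_z' i m) (cnt_z' m) ζ β h1, ?_⟩
      have h4 := Subgroup.Normal.conj_mem inferInstance _ (Kt_mono n a m h3) (of (Lt.b, m))
      have h5 := mul_mem h4 (hrel ζ h2)
      refine mem_of_eq h5 ?_
      simp only [Units.val_one]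
      group
    · obtain ⟨ζ, h1, h2, h3⟩ := pinch_aux n a m ih (z' m) (fun i => pr_z' i m) (cnt_z' m) β hβ hmem
      refine ⟨FreeGroup.lift (z m) ζ, lift_mem (H := EE a m) (z_mem_EE a m) ζ,
        psi_lift_le m _ (fun i => pr_z i m) (cnt_z m) ζ β h1, ?_⟩
      have h4 := Subgroup.Normal.conj_mem inferInstance _
        (mul_mem (Kt_mono n a m h3) (inv_mem (hrel ζ h2))) (of (Lt.b, m))⁻¹
      refine mem_of_eq h4 ?_
      simp only [Units.val_neg, Units.val_one]
      group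
  · unfold cnt at hW
    omega
  · rw [← e]
    exact K_le_ker_theta a m hK

theorem level_all (n : ℕ) (a : ℤ) (k : ℕ) :
    ∀ W : Fr, cnt (lowq (a + k)) W ≤ 2 * n → W ∈ K a (a + k) → W ∈ Kt n a (a + k) := by
  induction k with
  | zero =>
    intro W _ hW
    refine Subgroup.normalClosure_mono ?_ hW
    rintro _ ⟨i, j, h1, h2, rfl⟩
    simp at h2
    omega
  | succ k ih =>
    have e : a + ((k + 1 : ℕ) : ℤ) = a + k + 1 := by push_cast; ring
    rw [e]
    exact level_step n a (a + k) (by omega) ih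

/-- All relators. -/
def KK : Subgroup Fr := Subgroup.normalClosure {y | ∃ i j, y = rel i j}

/-- All relators of stage different from `n`. -/
def KKt (n : ℕ) : Subgroup Fr := Subgroup.normalClosure {y | ∃ i j, i.1 ≠ n ∧ y = rel i j}

instance : KK.Normal := Subgroup.normalClosure_normal

instance (n : ℕ) : (KKt n).Normal := Subgroup.normalClosure_normal

theorem K_mono {N N' : ℕ} (h : N ≤ N') : K (-N) N ≤ K (-N') N' :=
  Subgroup.normalClosure_mono
    (by rintro _ ⟨i, j, h1, h2, rfl⟩; exact ⟨i, j, by omega, by omega, rfl⟩)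

def UU : Subgroup Fr where
  carrier := {W | ∃ N : ℕ, W ∈ K (-N) N}
  one_mem' := ⟨0, one_mem _⟩
  mul_mem' := by
    rintro x y ⟨N, hN⟩ ⟨N', hN'⟩
    exact ⟨max N N', mul_mem (K_mono (le_max_left _ _) hN) (K_mono (le_max_right _ _) hN')⟩
  inv_mem' := by
    rintro x ⟨N, hN⟩
    exact ⟨N, inv_mem hN⟩

instance : UU.Normal where
  conj_mem := by
    rintro x ⟨N, hN⟩ g
    exact ⟨N, Subgroup.Normal.conj_mem inferInstance _ hN g⟩

theorem short_mem (n : ℕ) (W : Fr) (hW : W.norm ≤ 2 * n) (hK : W ∈ KK) : W ∈ KKt n := by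
  have h1 : KK ≤ UU := by
    apply Subgroup.normalClosure_le_normal
    rintro _ ⟨i, j, rfl⟩
    exact ⟨j.natAbs + 1, Subgroup.subset_normalClosure ⟨i, j, by omega, by omega, rfl⟩⟩
  obtain ⟨N, hN⟩ := h1 hK
  have e : (-(N : ℤ)) + ((2 * N : ℕ) : ℤ) = N := by push_cast; ring
  have h2 := level_all n (-N) (2 * N) W (le_trans (cnt_le_norm _ _) hW) (by rw [e]; exact hN)
  refine Subgroup.normalClosure_mono ?_ h2
  rintro _ ⟨i, j, h0, _, _, rfl⟩
  exact ⟨i, j, h0, rfl⟩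

end Pool.Agent.Lib.MP_608f54_al
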