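import Pool.Agent.Lib.MP_608f54_al.Britton

set_option autoImplicit false

namespace Pool.Agent.Lib.MP_608f54_al

open FreeGroup (of)

/-- Letters of one level. -/
inductive Lt : Type
  | a (i : Bool)
  | b
  | c
  | x (k : ℕ)
  deriving DecidableEq

/-- The generators of the group together with the variable. -/
inductive Gn : Type
  | t
  | a (i : Bool)
  | b
  | c
  | x
  deriving DecidableEq

abbrev Al : Type := Lt × ℤ
abbrev Fr : Type := FreeGroup Al
abbrev Ix : Type := ℕ × List (Gn × Bool)
abbrev Lam : Type := FreeGroup Bool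

def ltr (n : ℕ) : Gn → Lt
  | Gn.t => Lt.b
  | Gn.a i => Lt.a i
  | Gn.b => Lt.b
  | Gn.c => Lt.c
  | Gn.x => Lt.x n

/-- A word rewritten in the letters of the various levels. -/
def hw (n : ℕ) : List (Gn × Bool) → ℤ → Fr
  | [], _ => 1
  | g :: w, j =>
    if g.1 = Gn.t then hw n w (cond g.2 (j + 1) (j - 1))
    else (cond g.2 (of (ltr n g.1, j)) (of (ltr n g.1, j))⁻¹) * hw n w j

def encG : Gn → List Bool
  | Gn.t => [false, false, false]
  | Gn.a i => [false, true, i]
  | Gn.b => [false, false, true]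
  | Gn.c => [true, false, false]
  | Gn.x => [true, false, true]

def encL (g : Gn × Bool) : List Bool := g.2 :: encG g.1

theorem encL_length (g : Gn × Bool) : (encL g).length = 4 := by
  obtain ⟨g, ε⟩ := g
  cases g <;> rfl

theorem encL_inj : Function.Injective encL := by
  rintro ⟨g, ε⟩ ⟨g', ε'⟩ h
  cases g <;> cases g' <;> simp_all [encL, encG]

theorem flat_inj : ∀ w w' : List (Gn × Bool), w.flatMap encL = w'.flatMap encL → w = w'
  | [], [], _ => rfl
  | [], g :: w', h => by simp [encL] at h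
  | g :: w, [], h => by simp [encL] at h
  | g :: w, g' :: w', h => by
    rw [List.flatMap_cons, List.flatMap_cons] at h
    obtain ⟨h1, h2⟩ := List.append_inj h (by rw [encL_length, encL_length])
    rw [encL_inj h1, flat_inj w w' h2]

theorem flat_length (w : List (Gn × Bool)) : (w.flatMap encL).length = 4 * w.length := by
  induction w with
  | nil => rfl
  | cons g w ih => rw [List.flatMap_cons, List.length_append, ih, encL_length, List.length_cons]; ring

theorem rep_inj : ∀ (n n' : ℕ) (l l' : List Bool),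
    List.replicate n true ++ false :: l = List.replicate n' true ++ false :: l' → n = n' ∧ l = l'
  | 0, 0, _, _, h => by simpa using h
  | 0, n' + 1, _, _, h => by simp [List.replicate_succ] at h
  | n + 1, 0, _, _, h => by simp [List.replicate_succ] at h
  | n + 1, n' + 1, l, l', h => by
    simp only [List.replicate_succ, List.cons_append, List.cons.injEq, true_and] at h
    obtain ⟨h1, h2⟩ := rep_inj n n' l l' h
    exact ⟨by rw [h1], h2⟩

def enc (i : Ix) : List Bool := List.replicate i.1 true ++ false :: i.2.flatMap encL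

theorem enc_inj : Function.Injective enc := by
  rintro ⟨n, w⟩ ⟨n', w'⟩ h
  obtain ⟨h1, h2⟩ := rep_inj _ _ _ _ h
  exact Prod.ext h1 (flat_inj _ _ h2)

theorem enc_length (i : Ix) : (enc i).length = i.1 + 1 + 4 * i.2.length := by
  simp only [enc, List.length_append, List.length_replicate, List.length_cons, flat_length]
  ring

def code (i : Ix) : Lam := FreeGroup.mk ((enc i).map (fun β => (β, true)))

theorem toWord_code (i : Ix) : (code i).toWord = (enc i).map (fun β => (β, true)) := by
  rw [code, FreeGroup.toWord_mk]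
  apply FreeGroup.IsReduced.reduce_eq
  rw [FreeGroup.IsReduced, List.isChain_map]
  exact List.Pairwise.isChain (List.pairwise_of_forall (fun _ _ _ => rfl))

theorem code_inj : Function.Injective code := by
  intro i j h
  have := congrArg FreeGroup.toWord h
  rw [toWord_code, toWord_code] at this
  exact enc_inj (List.map_injective_iff.2 (fun _ _ h => (Prod.mk.inj h).1) this)

def M (i : Ix) : ℕ := 2 * i.1 + 2 * i.2.length + 1

def uu (i : Ix) (m : ℤ) : Fr := FreeGroup.map (fun β => (Lt.a β, m)) (code i)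

def hh (i : Ix) (m : ℤ) : Fr := hw i.1 i.2 (m - (i.2.length + 1))

def z (m : ℤ) (i : Ix) : Fr := uu i m * of (Lt.c, m) ^ M i * (uu i m)⁻¹

def z' (m : ℤ) (i : Ix) : Fr := uu i m * hh i m * of (Lt.c, m) ^ M i * (uu i m)⁻¹

def rel (i : Ix) (m : ℤ) : Fr := of (Lt.b, m) * z m i * (of (Lt.b, m))⁻¹ * (z' m i)⁻¹

def K (a m : ℤ) : Subgroup Fr :=
  Subgroup.normalClosure {y | ∃ i j, a ≤ j ∧ j < m ∧ y = rel i j}

def Kt (n : ℕ) (a m : ℤ) : Subgroup Fr :=
  Subgroup.normalClosure {y | ∃ i j, i.1 ≠ n ∧ a ≤ j ∧ j < m ∧ y = rel i j}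

instance (a m : ℤ) : (K a m).Normal := Subgroup.normalClosure_normal

instance (n : ℕ) (a m : ℤ) : (Kt n a m).Normal := Subgroup.normalClosure_normal

theorem hw_mem (H : Subgroup Fr) (n : ℕ) (w : List (Gn × Bool)) (j : ℤ)
    (h : ∀ (g : Gn) (j' : ℤ), j' ≤ j + w.length → of (ltr n g, j') ∈ H) : hw n w j ∈ H := by
  induction w generalizing j with
  | nil => exact one_mem _
  | cons g w ih =>
    rw [hw]
    split_ifs with hg
    · apply ih
      intro g' j' hj
      apply h
      rw [List.length_cons]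
      revert hj
      cases g.2 <;> simp <;> omega
    · refine mul_mem ?_ (ih j (fun g' j' hj => h g' j' (by rw [List.length_cons]; push_cast; omega)))
      have := h g.1 j (by rw [List.length_cons]; push_cast; omega)
      cases g.2
      · exact inv_mem this
      · exact this

theorem hh_mem (H : Subgroup Fr) (i : Ix) (m : ℤ)
    (h : ∀ (g : Gn) (j' : ℤ), j' < m → of (ltr i.1 g, j') ∈ H) : hh i m ∈ H :=
  hw_mem H _ _ _ (fun g j' hj => h g j' (by omega))

theorem uu_mem (H : Subgroup Fr) (i : Ix) (m : ℤ) (h : ∀ β, of (Lt.a β, m) ∈ H) : uu i m ∈ H := by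
  unfold uu
  induction code i using FreeGroup.induction_on with
  | C1 => rw [map_one]; exact one_mem _
  | of β => exact h β
  | inv_of β hβ => rw [map_inv]; exact inv_mem hβ
  | mul x y hx hy => rw [map_mul]; exact mul_mem hx hy

theorem z_mem (H : Subgroup Fr) (i : Ix) (m : ℤ) (h : ∀ β, of (Lt.a β, m) ∈ H)
    (hc : of (Lt.c, m) ∈ H) : z m i ∈ H :=
  mul_mem (mul_mem (uu_mem H i m h) (pow_mem hc _)) (inv_mem (uu_mem H i m h))

theorem z'_mem (H : Subgroup Fr) (i : Ix) (m : ℤ) (h : ∀ β, of (Lt.a β, m) ∈ H)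
    (hc : of (Lt.c, m) ∈ H) (hl : ∀ (g : Gn) (j' : ℤ), j' < m → of (ltr i.1 g, j') ∈ H) :
    z' m i ∈ H :=
  mul_mem (mul_mem (mul_mem (uu_mem H i m h) (hh_mem H i m hl)) (pow_mem hc _))
    (inv_mem (uu_mem H i m h))

theorem rel_mem (H : Subgroup Fr) (i : Ix) (m : ℤ) (h : ∀ l : Al, l.2 ≤ m → of l ∈ H) :
    rel i m ∈ H :=
  mul_mem (mul_mem (mul_mem (h _ le_rfl) (z_mem H i m (fun _ => h _ le_rfl) (h _ le_rfl)))
    (inv_mem (h _ le_rfl)))
    (inv_mem (z'_mem H i m (fun _ => h _ le_rfl) (h _ le_rfl) (fun _ _ hj => h _ hj.le)))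

theorem norm_hw (n : ℕ) (w : List (Gn × Bool)) (j : ℤ) : (hw n w j).norm ≤ w.length := by
  induction w generalizing j with
  | nil => exact Nat.zero_le _
  | cons g w ih =>
    rw [hw, List.length_cons]
    split_ifs with hg
    · exact le_trans (ih _) (Nat.le_succ _)
    · refine le_trans (FreeGroup.norm_mul_le _ _) ?_
      have := ih j
      cases g.2 <;> simp <;> omega

/-- Left multiplication permutes the basis of the free group on a group. -/
def act : Lam →* MulAut (FreeGroup Lam) where
  toFun g := FreeGroup.freeGroupCongr (Equiv.mulLeft g)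
  map_one' := by
    apply MulEquiv.toMonoidHom_injective
    ext y
    simp
  map_mul' g g' := by
    apply MulEquiv.toMonoidHom_injective
    ext y
    simp [mul_assoc]

theorem act_apply (g : Lam) (y : FreeGroup Lam) : act g y = FreeGroup.map (fun k => g * k) y := rfl

abbrev Dd : Type := FreeGroup Lam ⋊[act] Lam

def piL : Lt → Dd
  | Lt.a β => SemidirectProduct.inr (of β)
  | Lt.c => SemidirectProduct.inl (of 1)
  | _ => 1

def pr (m : ℤ) : Fr →* Dd := FreeGroup.lift (fun l => if l.2 = m then piL l.1 else 1)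

theorem pr_low (m : ℤ) (l : Al) (h : l.2 ≠ m) : pr m (of l) = 1 := by simp [pr, h]

theorem pr_uu (i : Ix) (m : ℤ) : pr m (uu i m) = SemidirectProduct.inr (code i) := by
  have : (pr m).comp (FreeGroup.map (fun β => (Lt.a β, m))) = SemidirectProduct.inr := by
    ext β : 1
    simp [pr, piL]
  exact DFunLike.congr_fun this (code i)

theorem pr_z (i : Ix) (m : ℤ) : pr m (z m i) = SemidirectProduct.inl (of (code i) ^ M i) := by
  have h : pr m (of (Lt.c, m)) = SemidirectProduct.inl (of 1) := by simp [pr, piL]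
  rw [z, map_mul, map_mul, map_inv, map_pow, pr_uu, h, ← map_pow, ← map_inv,
    ← SemidirectProduct.inl_aut, map_pow, act_apply]
  simp

theorem pr_z' (i : Ix) (m : ℤ) : pr m (z' m i) = SemidirectProduct.inl (of (code i) ^ M i) := by
  have h : pr m (hh i m) = 1 :=
    hh_mem (pr m).ker i m (fun g j hj => pr_low m _ (ne_of_lt hj))
  rw [← pr_z i m, z, z']
  simp only [map_mul, h, mul_one]

theorem K_le_ker (a m : ℤ) : K a m ≤ (pr m).ker := by
  apply Subgroup.normalClosure_le_normal
  rintro _ ⟨i, j, _, hj, rfl⟩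
  exact rel_mem _ i j (fun l hl => pr_low m l (by omega))

def nu (m : ℤ) (y : Fr) : ℕ := (pr m y).left.norm

theorem nu_mul (m : ℤ) (x y : Fr) : nu m (x * y) ≤ nu m x + nu m y := by
  unfold nu
  rw [map_mul, SemidirectProduct.mul_left]
  refine le_trans (FreeGroup.norm_mul_le _ _) ?_
  have := norm_map_le (fun k => (pr m x).right * k) (pr m y).left
  rw [act_apply]
  omega

theorem one_le_M (i : Ix) : 1 ≤ M i := by unfold M; omega

theorem nu_lift (m : ℤ) (y : Ix → Fr)
    (h : ∀ i, pr m (y i) = SemidirectProduct.inl (of (code i) ^ M i)) (ζ : FreeGroup Ix) :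
    nu m (FreeGroup.lift y ζ) = wt M ζ := by
  have : (pr m).comp (FreeGroup.lift y) =
      SemidirectProduct.inl.comp (FreeGroup.lift (fun i => of (code i) ^ M i)) := by
    ext i : 1
    simp [h]
  have h2 := DFunLike.congr_fun this ζ
  simp only [MonoidHom.comp_apply] at h2
  rw [nu, h2, SemidirectProduct.left_inl, norm_lift_pow code code_inj M one_le_M]

theorem nu_eq (a m : ℤ) {x y : Fr} (h : (x : Fr ⧸ K a m) = y) : nu m x = nu m y := by
  rw [QuotientGroup.eq] at h
  have := K_le_ker a m h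
  rw [MonoidHom.mem_ker, map_mul, map_inv, inv_mul_eq_one] at this
  rw [nu, nu, this]

theorem lift_inj (a m : ℤ) (y : Ix → Fr)
    (h : ∀ i, pr m (y i) = SemidirectProduct.inl (of (code i) ^ M i)) :
    Function.Injective ((QuotientGroup.mk' (K a m)).comp (FreeGroup.lift y)) := by
  rw [injective_iff_map_eq_one]
  intro ζ hζ
  have h1 : nu m (FreeGroup.lift y ζ) = nu m 1 := nu_eq a m hζ
  rw [nu_lift m y h] at h1
  have h2 : nu m 1 = 0 := by simp [nu]
  rw [← FreeGroup.toWord_eq_nil_iff, List.eq_nil_iff_forall_not_mem]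
  intro i hi
  have := le_wt M ζ i hi
  have := one_le_M i.1
  omega

def lowq (m : ℤ) (l : Al) : Bool := decide (l.2 < m)

theorem cnt_z' (m : ℤ) (i : Ix) : 2 * cnt (lowq m) (z' m i) ≤ M i := by
  have h1 : cnt (lowq m) (uu i m) = 0 :=
    uu_mem (cntZero (lowq m)) i m (fun β => by
      change cnt _ _ = 0
      simp [cnt_of, lowq])
  have h2 : cnt (lowq m) (of (Lt.c, m) ^ M i) = 0 :=
    Subgroup.pow_mem (cntZero (lowq m)) (by
      change cnt _ _ = 0
      simp [cnt_of, lowq]) _
  have h3 : cnt (lowq m) (hh i m) ≤ i.2.length := le_trans (cnt_le_norm _ _) (norm_hw _ _ _)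
  have h4 := cnt_mul (lowq m) (uu i m * hh i m * of (Lt.c, m) ^ M i) (uu i m)⁻¹
  have h5 := cnt_mul (lowq m) (uu i m * hh i m) (of (Lt.c, m) ^ M i)
  have h6 := cnt_mul (lowq m) (uu i m) (hh i m)
  rw [cnt_inv] at h4
  unfold z' M at *
  omega

theorem cnt_z (m : ℤ) (i : Ix) : 2 * cnt (lowq m) (z m i) ≤ M i := by
  have h1 : cnt (lowq m) (z m i) = 0 :=
    z_mem (cntZero (lowq m)) i m (fun β => by
      change cnt _ _ = 0
      simp [cnt_of, lowq]) (by
      change cnt _ _ = 0
      simp [cnt_of, lowq])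
  omega

end Pool.Agent.Lib.MP_608f54_al
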